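import Pool.Agent.Helper70.BI.HH.StHB

/-!
# Project BI, stage 7 (H), module KAP: the 3-cocycle
-/

set_option autoImplicit false

open scoped Topology unitInterval
open Set

namespace Pool.Agent.Helper70.HH

namespace KAP

variable {X : Type} [TopologicalSpace X]

/-- a representative of a class of paths -/
noncomputable def rp {x y : X} (g : Path.Homotopic.Quotient x y) : Path x y :=
  (Path.Homotopic.Quotient.mk_surjective g).choose

theorem mk_rp {x y : X} (g : Path.Homotopic.Quotient x y) :
    Path.Homotopic.Quotient.mk (rp g) = g :=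
  (Path.Homotopic.Quotient.mk_surjective g).choose_spec

/-- homotopic paths have a 2-cell between them -/
theorem exists_cell {x y : X} {p p' : Path x y} (h : p.Homotopic p') : Nonempty (Q2 p p') := by
  obtain ⟨F⟩ := h
  exact ⟨Path.Homotopic.Quotient.mk (mkP ⟨fun z => F z, F.continuous⟩ (fun t => F.apply_zero t)
    (fun t => F.apply_one t) (fun s => F.source s) (fun s => F.target s))⟩

variable {M : Type} [AddCommGroup M]

/-- the combination -/
noncomputable def kk (w : ∀ {x y : X} {p q : Path x y}, Q2 p q → M)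
    (f : ∀ {x y z : X}, Path x y → Path y z → M) {x y z v : X} (p : Path x y) (q : Path y z)
    (r : Path z v) : M :=
  w (asc p q r) - f q r - f p (q.trans r) + f p q + f (p.trans q) r

theorem kk_inv (hNAT : StNAT) {cc : ∀ {x y : X} (p : Path x y), Q2 p p → M}
    {w : ∀ {x y : X} {p q : Path x y}, Q2 p q → M} {f : ∀ {x y z : X}, Path x y → Path y z → M}
    (hW : IsW X M cc w f) {x y z v : X} {p p' : Path x y} {q q' : Path y z} {r r' : Path z v}
    (α : Q2 p p') (β : Q2 q q') (ε : Q2 r r') : kk w f p q r = kk w f p' q' r' := by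
  have h := congrArg (fun c => w c) (hNAT X x y z v p p' q q' r r' α β ε)
  simp only [hW.add, hW.hor] at h
  unfold kk
  have h2 := sub_eq_zero.2 h
  apply eq_of_sub_eq_zero
  rw [← neg_eq_zero, ← h2]
  abel

theorem kk_inv' (hNAT : StNAT) {cc : ∀ {x y : X} (p : Path x y), Q2 p p → M}
    {w : ∀ {x y : X} {p q : Path x y}, Q2 p q → M} {f : ∀ {x y z : X}, Path x y → Path y z → M}
    (hW : IsW X M cc w f) {x y z v : X} {p p' : Path x y} {q q' : Path y z} {r r' : Path z v}
    (h1 : Path.Homotopic.Quotient.mk p = Path.Homotopic.Quotient.mk p')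
    (h2 : Path.Homotopic.Quotient.mk q = Path.Homotopic.Quotient.mk q')
    (h3 : Path.Homotopic.Quotient.mk r = Path.Homotopic.Quotient.mk r') :
    kk w f p q r = kk w f p' q' r' := by
  obtain ⟨α⟩ := exists_cell (Path.Homotopic.Quotient.exact h1)
  obtain ⟨β⟩ := exists_cell (Path.Homotopic.Quotient.exact h2)
  obtain ⟨ε⟩ := exists_cell (Path.Homotopic.Quotient.exact h3)
  exact kk_inv hNAT hW α β ε

theorem w_refl {cc : ∀ {x y : X} (p : Path x y), Q2 p p → M}
    {w : ∀ {x y : X} {p q : Path x y}, Q2 p q → M} {f : ∀ {x y z : X}, Path x y → Path y z → M}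
    (hW : IsW X M cc w f) {x y : X} (p : Path x y) :
    w (Path.Homotopic.Quotient.refl p) = 0 := by
  have h := hW.add (Path.Homotopic.Quotient.refl p) (Path.Homotopic.Quotient.refl p)
  rw [Path.Homotopic.Quotient.trans_refl] at h
  exact left_eq_add.1 h

theorem kk_coc (hPEN : StPEN) {cc : ∀ {x y : X} (p : Path x y), Q2 p p → M}
    {w : ∀ {x y : X} {p q : Path x y}, Q2 p q → M} {f : ∀ {x y z : X}, Path x y → Path y z → M}
    (hW : IsW X M cc w f) {x y z u v : X} (p : Path x y) (q : Path y z) (r : Path z u)
    (s : Path u v) :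
    kk w f q r s - kk w f (p.trans q) r s + kk w f p (q.trans r) s - kk w f p q (r.trans s) +
      kk w f p q r = 0 := by
  have h := congrArg (fun c => w c) (hPEN X x y z u v p q r s)
  simp only [hW.add, hW.hor, w_refl hW] at h
  unfold kk
  have h2 := sub_eq_zero.2 h
  rw [← neg_eq_zero, ← h2]
  abel

end KAP

open KAP in
/-- **KAP.** -/
theorem m_KAP (hHL : StHL) (hNAT : StNAT) (hPEN : StPEN) : StKAP := by
  intro X _ M _ cc w f hW
  have _ := hHL
  have key : ∀ {x y z v : X} (p : Path x y) (q : Path y z) (r : Path z v),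
      kk w f (rp (Path.Homotopic.Quotient.mk p)) (rp (Path.Homotopic.Quotient.mk q))
        (rp (Path.Homotopic.Quotient.mk r)) = kk w f p q r := fun p q r =>
    kk_inv' hNAT hW (mk_rp _) (mk_rp _) (mk_rp _)
  refine ⟨fun {x y z v} g h k => kk w f (rp g) (rp h) (rp k), ?_, ?_⟩
  · intro x y z u v g h k l
    induction g using Path.Homotopic.Quotient.ind with | mk p => ?_
    induction h using Path.Homotopic.Quotient.ind with | mk q => ?_
    induction k using Path.Homotopic.Quotient.ind with | mk r => ?_
    induction l using Path.Homotopic.Quotient.ind with | mk s => ?_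
    simp only [← Path.Homotopic.Quotient.mk_trans, key]
    exact kk_coc hPEN hW p q r s
  · intro x y z v p q r
    show w (asc p q r) = kk w f (rp (Path.Homotopic.Quotient.mk p))
      (rp (Path.Homotopic.Quotient.mk q)) (rp (Path.Homotopic.Quotient.mk r)) + f q r +
        f p (q.trans r) - f p q - f (p.trans q) r
    rw [key]
    unfold kk
    abel

end Pool.Agent.Helper70.HH
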